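import Pool.Agent.R720.Fin

/-!
# Brauer characters versus class numbers of `p'`-subgroups: a counterexample for `p = 3`

The group is the fibre product of `PΓL₂(9) = Aut(A₆)` (order `1440`) and an extraspecial group of
order `128` over the group with two elements; the kernels of the two maps are `PGL₂(9)` and the
centralizer of a non-central element. It has `362` classes of elements of order prime to `3`, and
its subgroups of order prime to `3` have at most `359` classes.
-/

namespace Pool.Agent.Results.MP_58d2c7_al.OrderNinetyTwoThousand

/-- There is a finite group `G` (of order `92160`) such that every subgroup `H` of `G` of order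
prime to `3` has fewer conjugacy classes than there are conjugacy classes of `G` which consist of
elements of order prime to `3`. -/
theorem result : ∃ (G : Type) (_ : Group G) (_ : Finite G), Nat.card G = 92160 ∧
    ∀ H : Subgroup G, ¬ 3 ∣ Nat.card H →
      Nat.card (ConjClasses H) <
        Nat.card {c : ConjClasses G // ∃ g : G, ConjClasses.mk g = c ∧ ¬ 3 ∣ orderOf g} :=
  ⟨Pool.Agent.R720.BC.GG, inferInstance, inferInstance, Pool.Agent.R720.BC.card_GG,
    fun H hH => (Pool.Agent.R720.BC.class_number_lt H hH).trans_le
      Pool.Agent.R720.BC.regular_classes⟩

end Pool.Agent.Results.MP_58d2c7_al.OrderNinetyTwoThousand
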